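import Pool.Agent.PCS.Stmts

/-!
# PCS: the group `ZZ` is infinite (ZIN)
-/

open scoped Pointwise
open Filter

namespace Pool.Agent.PCS.H68

open Pool.Agent.H50.CIG Pool.Agent.PCS

/-- a bounded function is constant almost everywhere -/
theorem ev_const {V : Type} (U : Ultrafilter V) (f : V → ℕ) (m : ℕ)
    (h : ∀ᶠ v in (U : Filter V), f v ≤ m) : ∃ k, ∀ᶠ v in (U : Filter V), f v = k := by
  have h1 : (⋃ k ∈ Finset.range (m + 1), {v | f v = k}) ∈ (U : Filter V) := by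
    filter_upwards [h] with v hv
    simp only [Finset.mem_range, Set.mem_iUnion, exists_prop]
    exact ⟨f v, by omega, rfl⟩
  have h2 := (Ultrafilter.finite_biUnion_mem_iff (Finset.range (m + 1)).finite_toSet
    (s := fun k => {v | f v = k})).1 h1
  obtain ⟨k, -, hk⟩ := h2
  exact ⟨k, hk⟩

theorem zin (_hLev : LevStmt) (hItp : ItpStmt) (hSpa : SpaStmt) (hCov : CovStmt) : ZinStmt := by
  intro Γ V _ _ T S rk R K q M δ hS hδ H hH hfix U n hU hn hdel hmin
  classical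
  let E : Type := {p : V × ℕ × V // Hang T S rk p.2.1 p.1 p.2.2 ∧ N Γ p.1 = n ∧ del S rk p.1 = δ}
  let π : E → V := fun e => e.1.1
  let L : E → Subgroup Γ := fun e => KK T e.1.2.2
  have hne : S.Nonempty := ⟨1, hS.one_mem⟩
  obtain ⟨-, -, hsp⟩ := hSpa Γ V T S rk R hS.rank hne
  obtain ⟨-, -, -, -, hcj, -⟩ := hItp Γ V T
  have hye : ∀ e : E, del S rk e.1.2.2 + 1 ≤ δ ∧ N Γ e.1.2.2 ≤ T.d * n := by
    rintro ⟨⟨v, m, y⟩, h1, h2, h3⟩
    have h4 := hsp m v y h1 (by rw [h3]; exact hδ)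
    rw [h3, h2] at h4
    exact h4
  have hfy : ∀ e : E, ∀ h ∈ H, h • e.1.2.2 = e.1.2.2 := fun e h hh =>
    hfix _ ((hye e).2.trans (Nat.mul_le_mul_left _ hn)) h hh
  have hnorm : ∀ e : E, ∀ h ∈ H, ∀ k ∈ L e, h * k * h⁻¹ ∈ L e := fun e h hh k hk =>
    hcj h k _ (hfy e h hh) hk
  have hcov := hCov Γ hS.inf hS.nci H hH E V π L hnorm U ?_
  · refine hcov.mono ?_
    rintro h ⟨hhH, hh⟩
    refine ⟨hhH, ?_⟩
    filter_upwards [hh, hU.1, hdel] with v h1 h2 h3 m y hy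
    exact h1 ⟨(v, m, y), hy, h2, h3⟩ rfl
  · intro E' _
    by_contra hfin
    rw [Set.not_infinite] at hfin
    let U' : Ultrafilter V := E'.map (fun e : E => e.1.2.2)
    have hKU : (KU T U' : Set Γ).Finite := by
      by_contra hinf
      have h1 := inf_infinite (KU T U') H hinf
      refine h1 (hfin.subset ?_)
      rintro h hh
      have h2 : h ∈ KU T U' ∧ h ∈ H := by simpa using hh
      exact ⟨h2.2, h2.1⟩
    obtain ⟨n', hn'⟩ : ∃ n', ∀ᶠ v in (U' : Filter V), N Γ v = n' := by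
      refine ev_const U' (fun v => N Γ v) (T.d * n) ?_
      show ∀ᶠ e in (E' : Filter E), N Γ e.1.2.2 ≤ T.d * n
      exact Eventually.of_forall fun e => (hye e).2
    have h1 := hmin U' n' ⟨hn', hKU⟩
    have h2 : ∀ᶠ v in (U' : Filter V), del S rk v + 1 ≤ δ := by
      show ∀ᶠ e in (E' : Filter E), del S rk e.1.2.2 + 1 ≤ δ
      exact Eventually.of_forall fun e => (hye e).1
    obtain ⟨v, hv1, hv2⟩ := (h1.and h2).exists
    omega

end Pool.Agent.PCS.H68
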